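import Pool.Agent.Lib.MP_45e0c4_an.Embed
import Pool.Agent.Lib.MP_45e0c4_an.Coord

/-!
No infinite-dimensional space with the super alternative Daugavet property embeds isomorphically
into a Banach space with an unconditional basis. With `X = Z` and `T` the identity, this answers
Q1 of the problem in the negative.

Idea of the proof. Let `P_A` be the partial sum projections. By induction on `r` one finds, for
every unit vector `x` and every finite set `A` of coordinates, a unit vector `xh` and a vector
`y_r` in the unit ball of `X`, essentially supported on a finite set disjoint from `A`, such that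
every norm-one functional which (nearly) attains its norm at `xh` also does so at `x` and at `y_r`,
while it satisfies `∑ |g(coord_i (y_r) e_i)| ≥ r`. In the step, take two copies `y_r`, `y_r'` with
essentially disjoint supports and let `y_{r+1}` be a rotation of a vector weakly close to
`(y_r - y_r') / 2` provided by the super ADP for the point `xh`: on the old coordinates it
contributes `r` to the absolute sum while all norming functionals almost vanish on that part, so a
further contribution of (nearly) `1` must come from new coordinates. This contradicts the
boundedness of the absolute sums given by unconditionality.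
-/

noncomputable section

namespace Pool.Agent.Results.MP_45e0c4_an.NoUnconditionalBasis

open Pool.Agent.Lib.MP_45e0c4_an

theorem result {𝕜 : Type*} [RCLike 𝕜]
    {X : Type*} [NormedAddCommGroup X] [NormedSpace 𝕜 X] (hX : ¬ FiniteDimensional 𝕜 X)
    {Z : Type*} [NormedAddCommGroup Z] [NormedSpace 𝕜 Z] [CompleteSpace Z]
    {β : Type*} (e : β → Z) (he : ∀ z : Z, ∃! a : β → 𝕜, HasSum (fun i => a i • e i) z)
    (T : X →L[𝕜] Z) (hT : ∃ c : ℝ, 0 < c ∧ ∀ x : X, c * ‖x‖ ≤ ‖T x‖) :
    ¬ SuperADP 𝕜 X := by
  obtain ⟨b, -⟩ := exists_basis e he
  obtain ⟨c, hc, hT⟩ := hT
  exact not_superADP_of_embedding b T hc hT hX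

end Pool.Agent.Results.MP_45e0c4_an.NoUnconditionalBasis
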